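import Pool.Agent.Results.MP_7193be_nt.JensenPowersCM
import Pool.Agent.TH99.LI.NV

/-!
# The generalised Li coefficients of the Hasse-Weil L-functions of the powers of a CM elliptic curve
# along thin sets

Let `E : y² = x³ - x`, `X = E^g`, `i` odd, `0 < i < 2g`, and let `Λ` be the completed Hasse-Weil L-function
of `H^i(X)` (definitions of the starting file `Pool.Agent.Results.MP_7193be_nt.JensenPowersCM`).  For
`β > 0` with `Λ((i+1)/2 + β) ≠ 0` (for instance for every `β > 1/2`) let `λ_β(n)`, `n ≥ 1`, be the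
coefficient of `z^(n-1)` of the logarithmic derivative of
`z ↦ Λ((i+1)/2 + β (1+z)/(1-z))` at `0` (`β = 1/2` is the classical normalisation of Li).

For EVERY set `A` of Bohr recurrence (for instance the set of all differences of the elements of an
arbitrary infinite set of integers, however sparse, or the set of all `k`-th powers) part (d) of the
problem for this `X` and `i` holds if and only if `λ_β(n) ≥ 0` for all `n ∈ A`; and for `Q ≥ 1` all zeros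
lie outside of the Apollonius disc `|s - (i+1)/2 + β| > Q |s - (i+1)/2 - β|` if and only if
`λ_β(n) ≥ -(Q + ε)^n` for every `ε > 0` and all large `n ∈ A`.
-/

set_option autoImplicit false

namespace Pool.Agent.Results.MP_7193be_nt.LiThinSets

open Complex
open scoped ComplexConjugate
open Pool.Agent.Results.MP_7193be_nt.JensenPowersCM (IsHasseWeil IsCompleted F)

/-- A set `A` of natural numbers is a set of Bohr recurrence: for finitely many complex numbers `w` of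
absolute value one there are arbitrarily large `n ∈ A` with all `w ^ n` as close to `1` as we like. -/
def BohrRecurrent (A : Set ℕ) : Prop :=
  ∀ W : Finset ℂ, (∀ w ∈ W, ‖w‖ = 1) → ∀ ε : ℝ, 0 < ε → ∀ N : ℕ,
    ∃ n ∈ A, N ≤ n ∧ ∀ w ∈ W, ‖w ^ n - 1‖ < ε

/-- The generalised Li coefficient `λ_β(n)`, `n ≥ 1`: the (real part of the) coefficient of `z^(n-1)` of
the logarithmic derivative of `z ↦ F(β (1+z)/(1-z))` at `0`. -/
noncomputable def li (F : ℂ → ℂ) (β : ℝ) (n : ℕ) : ℝ :=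
  (iteratedDeriv (n - 1) (logDeriv fun z : ℂ => F (β * (1 + z) / (1 - z))) 0).re /
    ((n - 1).factorial : ℝ)

/-- **The theorem.** -/
theorem result :
    (∀ S : Set ℕ, S.Infinite → BohrRecurrent {n | ∃ s ∈ S, ∃ t ∈ S, t < s ∧ n = s - t}) ∧
    (∀ k : ℕ, 1 ≤ k → BohrRecurrent {n | ∃ a : ℕ, 0 < a ∧ n = a ^ k}) ∧
    ∀ g i : ℕ, Odd i → i < 2 * g →
    ∃ L Λ : ℂ → ℂ, IsHasseWeil g i L ∧ IsCompleted g i L Λ ∧
      (∀ s : ℂ, Λ (conj s) = conj (Λ s)) ∧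
      (∃ r : ℕ, r ≤ 1 ∧ ∀ s : ℂ, Λ (i + 1 - s) = (-1) ^ r * Λ s) ∧
      (∀ β : ℝ, 1 / 2 < β → Λ (((i : ℂ) + 1) / 2 + β) ≠ 0) ∧
      ∀ β : ℝ, 0 < β → Λ (((i : ℂ) + 1) / 2 + β) ≠ 0 →
        (∀ A : Set ℕ, BohrRecurrent A →
          ((∀ s : ℂ, Λ s = 0 → s.re = ((i : ℝ) + 1) / 2) ↔
            ∀ n ∈ A, 1 ≤ n → 0 ≤ li (F i Λ) β n) ∧
          ∀ Q : ℝ, 1 ≤ Q →
            ((∀ s : ℂ, Λ s = 0 →
              ‖s - ((i : ℂ) + 1) / 2 + β‖ ≤ Q * ‖s - ((i : ℂ) + 1) / 2 - β‖) ↔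
            ∀ ε : ℝ, 0 < ε → ∃ N : ℕ, ∀ n ∈ A, N ≤ n → -(Q + ε) ^ n ≤ li (F i Λ) β n)) ∧
        ((¬ ∀ s : ℂ, Λ s = 0 → s.re = ((i : ℝ) + 1) / 2) →
          ∃ ρ : ℝ, 1 < ρ ∧ ∀ A : Set ℕ, BohrRecurrent A → ∀ N : ℕ, ∃ n ∈ A, N ≤ n ∧
            li (F i Λ) β n ≤ -ρ ^ n) := by
  refine ⟨fun S hS => Pool.Agent.TH99.LI.bohr_diffs hS,
    fun k hk => Pool.Agent.TH99.LI.bohr_powers hk, fun g i hi hg => ?_⟩
  obtain ⟨m, rfl⟩ := hi
  obtain ⟨Λ, r, hr, h1, h2, h3, h4, h5, G, k, hEF⟩ := Pool.Agent.TH99.LI.ef_HW g m (by omega)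
  have hc : ((((2 * m + 1 : ℕ) : ℂ) + 1) / 2) = (((((2 * m + 1 : ℕ) : ℝ) + 1) / 2 : ℝ) : ℂ) := by
    push_cast
    rfl
  have hEF' : Pool.Agent.TH99.LI.EF
      (fun z => Λ (((((2 * m + 1 : ℕ) : ℝ) + 1) / 2 : ℝ) + z)) G k := by
    rw [← hc]
    exact hEF
  have hnv : ∀ β : ℝ, 1 / 2 < β → Λ ((((2 * m + 1 : ℕ) : ℂ) + 1) / 2 + β) ≠ 0 := by
    intro β hβ
    refine h5 _ ?_
    rw [hc, add_re, ofReal_re, ofReal_re]
    linarith
  refine ⟨fun s => Pool.Agent.W355.HW.LL0 g m (s - ((2 * m + 1 : ℕ) : ℂ) / 2), Λ,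
    ⟨(Pool.Agent.W355.HW.LL0_diff g m).comp (differentiable_id.sub_const _),
      fun α β hαβ s hs => Pool.Agent.W355.HW.LL0_prod g m α β hαβ s hs⟩, ⟨h1, h2⟩, h3,
      ⟨r, hr, h4⟩, hnv, fun β hβ hF => ?_⟩
  rw [hc] at hF
  have hFe : (F (2 * m + 1) Λ) = fun z : ℂ => Λ (((((2 * m + 1 : ℕ) : ℝ) + 1) / 2 : ℝ) + z) := by
    funext z
    unfold F
    rw [hc]
  rw [hFe, hc]
  exact ⟨fun A hA => hEF'.crit_center hβ hF hA, fun hr => hEF'.large_center hβ hF hr⟩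

end Pool.Agent.Results.MP_7193be_nt.LiThinSets
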